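import Pool.Agent.Helper80.E49600.Main

set_option autoImplicit false

open Pool.Agent.Helper80.E49600

namespace Pool.Agent.Results.MP_e49600_an.NoCRG

/-- **Negative answer to Q1.** There are an entire function `f` of order `ρ₀ ≥ 1` which is of
completely regular growth with respect to its proximate order `ρ(r)` (explicitly `f z = exp (z ^ 2)`
and `ρ(r) = 2`) and an entire function `φ t = ∑ c_k t ^ k` of exponential type, not identically
zero, such that no entire solution `F` of `φ(D) F = f` is of completely regular growth with respect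
to `ρ(r)`. -/
theorem result :
    ∃ (f : ℂ → ℂ) (ρ : ℝ → ℝ) (ρ₀ : ℝ) (φ : ℂ → ℂ) (c : ℕ → ℂ),
      (∀ z, f z = Complex.exp (z ^ 2)) ∧ (∀ r, ρ r = 2) ∧
      Differentiable ℂ f ∧ 1 ≤ ρ₀ ∧ order f = (ρ₀ : EReal) ∧ IsProximateOrder ρ ρ₀ ∧
      0 < typ f ρ ∧ typ f ρ < ⊤ ∧ IsCRG f ρ ∧
      Differentiable ℂ φ ∧ (∀ t, HasSum (fun k => c k * t ^ k) (φ t)) ∧
      (∃ C τ : ℝ, ∀ t, ‖φ t‖ ≤ C * Real.exp (τ * ‖t‖)) ∧ (∃ t, φ t ≠ 0) ∧
      ∀ F : ℂ → ℂ, Differentiable ℂ F →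
        (∀ z, HasSum (fun k => c k * iteratedDeriv k F z) (f z)) → ¬ IsCRG F ρ :=
  Pool.Agent.Helper80.E49600.main

end Pool.Agent.Results.MP_e49600_an.NoCRG
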